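import Mathlib
import Pool.Agent.Y307.Cut.Cyc

set_option autoImplicit false

open Finset Filter Topology

namespace Pool.Agent.Results.MP_7e070a_pr.SymmetricNoCutoff

noncomputable section

section

variable {n : ℕ} [NeZero n]

/-- The transition matrix `P(x, y) = μ(y - x)` of the convolution walk. -/
def step (μ : ZMod n → ℝ) : Matrix (ZMod n) (ZMod n) ℝ := fun x y => μ (y - x)

/-- Total variation distance to the uniform distribution at time `t`, started at `0` (every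
starting point gives the same value). -/
def tv (μ : ZMod n → ℝ) (t : ℕ) : ℝ := (1 / 2 : ℝ) * ∑ y, |(step μ ^ t) 0 y - 1 / (n : ℝ)|

/-- `T_mix(ε) = min {t : tv t ≤ ε}`. -/
def Tmix (μ : ZMod n → ℝ) (ε : ℝ) : ℕ := sInf {t : ℕ | tv μ t ≤ ε}

/-- The eigenvalue `∑_x μ(x) cos(2πjx/n)`. -/
def eig (μ : ZMod n → ℝ) (j : ZMod n) : ℝ :=
  ∑ x, μ x * Real.cos (2 * Real.pi * (j.val * x.val : ℕ) / n)

/-- `T_rel = 1 / (1 - λ_*)`, where `λ_*` is the largest absolute value of an eigenvalue with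
index `j ≠ 0`. -/
def Trel (μ : ZMod n → ℝ) : ℝ := 1 / (1 - ⨆ j : {j : ZMod n // j ≠ 0}, |eig μ j|)

/-- `μ` is the step distribution of the lazy simple random walk on a Cayley graph of `ℤ/n`:
`μ = (δ_0 + uniform(S)) / 2` for a nonempty set `S = -S` with `0 ∉ S`. -/
def LazySRW (μ : ZMod n → ℝ) : Prop :=
  ∃ S : Finset (ZMod n), S.Nonempty ∧ 0 ∉ S ∧ (∀ s ∈ S, -s ∈ S) ∧
    ∀ x, μ x = (if x = 0 then 1 / 2 else 0) + (if x ∈ S then 1 / (2 * (S.card : ℝ)) else 0)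

/-- Symmetric step distribution of an irreducible aperiodic walk (lazy, in fact): a probability
vector, symmetric, `μ(0) = 1/2`, whose support generates `ℤ/n`. -/
structure Lazy (μ : ZMod n → ℝ) : Prop where
  nonneg : ∀ x, 0 ≤ μ x
  sum : ∑ x, μ x = 1
  symm : ∀ x, μ (-x) = μ x
  lazy : μ 0 = 1 / 2
  gen : AddSubgroup.closure {x | μ x ≠ 0} = ⊤

end

/-- There are lazy, symmetric, irreducible (hence aperiodic) convolution walks on cycles `ℤ/n_k`,
`n_k → ∞`, in fact lazy simple random walks on (unweighted) Cayley graphs, with `T_rel ≤ 8`,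
`T_mix(1/2) > k` (so `T_mix / T_rel → ∞`) and `T_mix(1999/2000) ≤ k/4 + 17`, hence without total
variation cutoff. -/
theorem result :
    ∃ (n : ℕ → ℕ) (_ : ∀ k, NeZero (n k)) (μ : ∀ k, ZMod (n k) → ℝ),
      Tendsto n atTop atTop ∧ (∀ k, Lazy (μ k)) ∧ (∀ k, LazySRW (μ k)) ∧
      (∀ k ε, 0 < ε → ∃ t, tv (μ k) t ≤ ε) ∧ (∀ k, 0 < Trel (μ k) ∧ Trel (μ k) ≤ 8) ∧
      (∀ k, k < Tmix (μ k) (1 / 2)) ∧ (∀ k, (Tmix (μ k) (1999 / 2000) : ℝ) ≤ k / 4 + 17) ∧
      Tendsto (fun k => (Tmix (μ k) (1 / 4) : ℝ) / Trel (μ k)) atTop atTop ∧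
      ¬ ∀ ε : ℝ, 0 < ε → ε < 1 / 2 →
        Tendsto (fun k => (Tmix (μ k) ε : ℝ) / (Tmix (μ k) (1 - ε) : ℝ)) atTop (𝓝 1) := by
  choose N hN S hTN hS using fun n : ℕ => Helper394.exists_bad (n + 64) (by omega)
  have hP : ∀ k, ∀ f : ZMod (N k) → ℝ,
      (step (Y307.Cut.lz (S k))).mulVec f = Helper394.V (S k) f :=
    fun k f => Y307.Cut.tr_lz_mulVec (S k) f
  have htv : ∀ k t, tv (Y307.Cut.lz (S k)) t = (1 / 2 : ℝ) *
      ∑ y, |((step (Y307.Cut.lz (S k))) ^ t) 0 y -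
        1 / (Fintype.card (ZMod (N k)) : ℝ)| := by
    intro k t
    rw [tv, ZMod.card]
  have h1 : ∀ k, ∀ t ≤ k + 64, 1 / 2 < tv (Y307.Cut.lz (S k)) t := by
    intro k t ht
    have h := Helper394.fact_lower (hS k) (hP k) t ht
    rw [htv]
    linarith
  have h2 : ∀ k, tv (Y307.Cut.lz (S k)) (2 * ((k + 64) / 8) + 1) ≤ 1 - 1 / 2000 := by
    intro k
    rw [htv]
    exact Helper394.fact_upper (hS k) (hP k) ((k + 64) / 8) (by omega) 0
  have h3 : ∀ k ε, 0 < ε → ∃ t, tv (Y307.Cut.lz (S k)) t ≤ ε := by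
    intro k ε hε
    have hG : (0 : ℝ) < Fintype.card (ZMod (N k)) := by exact_mod_cast Fintype.card_pos
    obtain ⟨t, ht⟩ := Helper394.fact_conv (hS k) (hP k) (ε / Fintype.card (ZMod (N k)))
      (by positivity)
    refine ⟨t, ?_⟩
    rw [htv]
    calc (1 / 2 : ℝ) * ∑ y, |((step (Y307.Cut.lz (S k))) ^ t) 0 y -
          1 / (Fintype.card (ZMod (N k)) : ℝ)|
        ≤ (1 / 2 : ℝ) * ∑ _y : ZMod (N k), ε / Fintype.card (ZMod (N k)) := by
          gcongr with y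
          exact ht 0 y
      _ = ε / 2 := by
          simp only [Finset.sum_const, Finset.card_univ, nsmul_eq_mul]
          field_simp
      _ ≤ ε := by linarith
  have heig : ∀ k (j : ZMod (N k)), j ≠ 0 → |eig (Y307.Cut.lz (S k)) j| ≤ 7 / 8 := by
    intro k j hj
    refine le_trans ?_ (Y307.Cut.hat_le (hS k) j hj)
    refine le_trans (le_of_eq ?_) (Complex.abs_re_le_norm _)
    congr 1
    rw [eig, Complex.re_sum]
    refine Finset.sum_congr rfl fun x _ => ?_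
    rw [Complex.re_ofReal_mul]
    congr 1
    have : (2 * Real.pi * Complex.I * (j.val * x.val : ℕ) / (N k : ℂ) : ℂ) =
        ((2 * Real.pi * (j.val * x.val : ℕ) / (N k) : ℝ) : ℂ) * Complex.I := by
      push_cast
      ring
    rw [this, Complex.exp_ofReal_mul_I_re]
  have hrel : ∀ k, 0 < Trel (Y307.Cut.lz (S k)) ∧ Trel (Y307.Cut.lz (S k)) ≤ 8 := by
    intro k
    have : (⨆ j : {j : ZMod (N k) // j ≠ 0}, |eig (Y307.Cut.lz (S k)) j|) ≤ 7 / 8 :=
      Real.iSup_le (fun j => heig k j.1 j.2) (by norm_num)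
    have h0 : 0 < 1 - ⨆ j : {j : ZMod (N k) // j ≠ 0}, |eig (Y307.Cut.lz (S k)) j| := by
      linarith
    refine ⟨one_div_pos.mpr h0, ?_⟩
    rw [Trel, div_le_iff₀ h0]
    linarith
  refine ⟨N, hN, fun k => Y307.Cut.lz (S k), ?_, fun k => ⟨fun x => Y307.Cut.lz_nonneg _ x,
    Y307.Cut.lz_sum _ (hS k).nonempty, fun x => Y307.Cut.lz_symm _ (hS k).neg x, ?_, ?_⟩,
    fun k => ⟨S k, (hS k).nonempty, (hS k).zero, (hS k).neg, fun x => rfl⟩, h3,
    hrel, ?_, ?_, ?_, ?_⟩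
  · exact tendsto_atTop_mono (fun k => by have := hTN k; simp only [id]; omega) tendsto_id
  · have : (0 : ZMod (N k)) ∉ S k := (hS k).zero
    simp [Y307.Cut.lz, this]
  · exact Y307.Cut.ergodic (hS k) _ 0 fun x hx => by
      rw [sub_zero]; exact AddSubgroup.subset_closure hx
  · intro k
    have : k + 64 + 1 ≤ Tmix (Y307.Cut.lz (S k)) (1 / 2) :=
      Helper394.sInf_gt _ (k + 64) _ le_rfl (h1 k) (h3 k _ (by norm_num))
    exact lt_of_lt_of_le (by omega) this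
  · intro k
    have h4 : Tmix (Y307.Cut.lz (S k)) (1999 / 2000) ≤ 2 * ((k + 64) / 8) + 1 :=
      Nat.sInf_le (show tv (Y307.Cut.lz (S k)) _ ≤ _ from by
        have := h2 k
        norm_num at this ⊢
        exact this)
    have h5 : 4 * Tmix (Y307.Cut.lz (S k)) (1999 / 2000) ≤ k + 68 := by omega
    have h6 : (4 : ℝ) * Tmix (Y307.Cut.lz (S k)) (1999 / 2000) ≤ k + 68 := by exact_mod_cast h5
    linarith
  · exact Helper394.tendsto_div_of _ _
      (fun k => Helper394.sInf_gt _ (k + 64) _ (by norm_num) (h1 k) (h3 k _ (by norm_num))) hrel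
  · intro hcut
    exact Helper394.no_cutoff_of (fun k => tv (Y307.Cut.lz (S k))) h1 h2 h3
      (hcut (1 / 2000) (by norm_num) (by norm_num))

end

end Pool.Agent.Results.MP_7e070a_pr.SymmetricNoCutoff
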